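import Pool.Agent.Y262.EL.Stm

/-!
# Project EL: integration on the surface
-/

set_option autoImplicit false

open Set Filter Topology MeasureTheory
open scoped ContDiff

namespace Pool.Agent.Y848.EL

open Pool.Agent.Y262.EG Pool.Agent.Y262.EX Pool.Agent.Y262.EL

/-- the area on an injective piece is an image measure -/
theorem restrict_eq {M : Type} [MetricSpace M] [MeasurableSpace M] [BorelSpace M]
    (q q' : ℂ → M) (m : Measure M) (w : ℂ → ℝ) (B : Set ℂ) (hB : MeasurableSet B)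
    (hq' : Measurable q') (hqq : ∀ p ∈ B, q' p = q p)
    (hm : ∀ B' : Set ℂ, MeasurableSet B' → B' ⊆ B →
      m (q '' B') = ∫⁻ p in B', ENNReal.ofReal (w p)) :
    m.restrict (q '' B) =
      (((volume : Measure ℂ).restrict B).withDensity fun p => ENNReal.ofReal (w p)).map q' := by
  refine Measure.ext fun S hS => ?_
  have h1 : S ∩ q '' B = q '' (q' ⁻¹' S ∩ B) := by
    ext x
    constructor
    · rintro ⟨hx, p, hp, rfl⟩
      exact ⟨p, ⟨by rw [mem_preimage, hqq p hp]; exact hx, hp⟩, rfl⟩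
    · rintro ⟨p, ⟨hp1, hp2⟩, rfl⟩
      rw [mem_preimage, hqq p hp2] at hp1
      exact ⟨hp1, p, hp2, rfl⟩
  have h2 : MeasurableSet (q' ⁻¹' S) := hq' hS
  rw [Measure.restrict_apply hS, h1, hm _ (h2.inter hB) inter_subset_right,
    Measure.map_apply hq' hS, withDensity_apply _ h2, Measure.restrict_restrict h2]

section

variable {M P : Type} [MetricSpace M] [CompactSpace M] [MetricSpace P] [CompactSpace P]
  [MeasurableSpace M] [BorelSpace M] {Ω : Set ℂ} {φ : ℂ → ℝ} {pr : ℂ → M} {q : Y → P}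
  {μ : Measure M}

theorem part1 (hUT : IsUT Ω φ pr q) (hL : IsArea Ω φ pr μ) (B : Set ℂ) (hB : MeasurableSet B)
    (hBΩ : B ⊆ Ω) (hq : InjOn pr B) : MeasurableSet (pr '' B) ∧
      (∀ G : M → ENNReal, Measurable G → ∫⁻ x in pr '' B, G x ∂μ =
        ∫⁻ z in B, G (pr z) * ENNReal.ofReal (Real.exp (2 * φ z))) ∧
      ∀ G : M → ℝ, Measurable G → ∫ x in pr '' B, G x ∂μ =
        ∫ z in B, G (pr z) * Real.exp (2 * φ z) := by
  have hqc : ContinuousOn pr B := hUT.contp.mono hBΩ
  have hqB : MeasurableSet (pr '' B) := hB.image_of_continuousOn_injOn hqc hq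
  refine ⟨hqB, ?_⟩
  classical
  obtain ⟨q', hq'⟩ : ∃ q' : ℂ → M, q' = B.piecewise pr fun _ => pr 0 := ⟨_, rfl⟩
  have hq'm : Measurable q' := by
    rw [hq']
    exact hqc.measurable_piecewise continuousOn_const hB
  have hqq : ∀ p ∈ B, q' p = pr p := by
    intro p hp
    rw [hq', piecewise_eq_of_mem _ _ _ hp]
  have hφ : ContinuousOn (fun p : ℂ => Real.exp (2 * φ p)) B := by
    have h1 : ContinuousOn (fun p : ℂ => φ p) B := hUT.smooth.continuousOn.mono hBΩ
    exact Real.continuous_exp.comp_continuousOn (continuousOn_const.mul h1)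
  obtain ⟨w, hw⟩ : ∃ w : ℂ → ℝ, w = B.piecewise (fun p : ℂ => Real.exp (2 * φ p)) fun _ => 0 :=
    ⟨_, rfl⟩
  have hwm : Measurable w := by
    rw [hw]
    exact hφ.measurable_piecewise continuousOn_const hB
  have hww : ∀ p ∈ B, w p = Real.exp (2 * φ p) := by
    intro p hp
    rw [hw, piecewise_eq_of_mem _ _ _ hp]
  have hres := restrict_eq pr q' μ w B hB hq'm hqq (by
    intro B' hB' hsub
    rw [hL B' hB' (hsub.trans hBΩ) (hq.mono hsub)]
    refine setLIntegral_congr_fun hB' fun p hp => ?_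
    show _ = ENNReal.ofReal (w p)
    rw [hww p (hsub hp)])
  constructor
  · intro G hG
    rw [hres, lintegral_map hG hq'm]
    refine (lintegral_withDensity_eq_lintegral_mul _ hwm.ennreal_ofReal (hG.comp hq'm)).trans ?_
    refine setLIntegral_congr_fun hB fun p hp => ?_
    show ENNReal.ofReal (w p) * G (q' p) = _
    rw [hqq p hp, hww p hp, mul_comm]
  · intro G hG
    rw [hres, integral_map hq'm.aemeasurable hG.aestronglyMeasurable]
    have h1 : (fun p => ENNReal.ofReal (w p)) = fun p => ((Real.toNNReal (w p) : NNReal) : ENNReal) :=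
      rfl
    rw [h1, integral_withDensity_eq_integral_smul hwm.real_toNNReal]
    refine setIntegral_congr_fun hB fun p hp => ?_
    show Real.toNNReal (w p) • G (q' p) = _
    rw [hqq p hp, NNReal.smul_def, hww p hp, Real.coe_toNNReal _ (Real.exp_pos _).le, smul_eq_mul,
      mul_comm]

theorem part2 (hUT : IsUT Ω φ pr q) (hL : IsArea Ω φ pr μ) : IsFiniteMeasure μ := by
  have hex : ∀ z : Ω, ∃ r : ℝ, 0 < r ∧ Metric.closedBall (z : ℂ) r ⊆ Ω ∧
      InjOn pr (Metric.ball (z : ℂ) r) := by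
    rintro ⟨z, hz⟩
    obtain ⟨r, hr, hsub, hinj⟩ := hUT.injp z hz
    exact ⟨r / 2, by positivity, (Metric.closedBall_subset_ball (by linarith)).trans hsub,
      hinj.mono (Metric.ball_subset_ball (by linarith))⟩
  choose r hr hsub hinj using hex
  have hopen : ∀ z : Ω, IsOpen (pr '' Metric.ball (z : ℂ) (r z)) := fun z =>
    hUT.opnp _ Metric.isOpen_ball (Metric.ball_subset_closedBall.trans (hsub z))
  have hcov : (univ : Set M) ⊆ ⋃ z : Ω, pr '' Metric.ball (z : ℂ) (r z) := by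
    intro x _
    have hx : x ∈ pr '' Ω := by rw [hUT.surjp]; exact mem_univ x
    obtain ⟨z, hz, rfl⟩ := hx
    exact mem_iUnion.2 ⟨⟨z, hz⟩, z, Metric.mem_ball_self (hr ⟨z, hz⟩), rfl⟩
  obtain ⟨t, ht⟩ := isCompact_univ.elim_finite_subcover _ hopen hcov
  have hfin : ∀ z : Ω, μ (pr '' Metric.ball (z : ℂ) (r z)) < ⊤ := by
    intro z
    rw [hL _ measurableSet_ball (Metric.ball_subset_closedBall.trans (hsub z)) (hinj z)]
    have hc : ContinuousOn (fun w => Real.exp (2 * φ w)) (Metric.closedBall (z : ℂ) (r z)) :=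
      Real.continuous_exp.comp_continuousOn
        (continuousOn_const.mul (hUT.smooth.continuousOn.mono (hsub z)))
    obtain ⟨C, hC⟩ := (isCompact_closedBall (z : ℂ) (r z)).exists_bound_of_continuousOn hc
    calc ∫⁻ w in Metric.ball (z : ℂ) (r z), ENNReal.ofReal (Real.exp (2 * φ w))
        ≤ ∫⁻ _ in Metric.ball (z : ℂ) (r z), ENNReal.ofReal C := by
          apply setLIntegral_mono' measurableSet_ball
          intro w hw
          apply ENNReal.ofReal_le_ofReal
          exact (le_abs_self _).trans (hC w (Metric.ball_subset_closedBall hw))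
      _ = ENNReal.ofReal C * volume (Metric.ball (z : ℂ) (r z)) := by
          rw [setLIntegral_const]
      _ < ⊤ := ENNReal.mul_lt_top ENNReal.ofReal_lt_top measure_ball_lt_top
  refine ⟨?_⟩
  calc μ univ ≤ μ (⋃ z ∈ t, pr '' Metric.ball (z : ℂ) (r z)) := measure_mono ht
    _ ≤ ∑ z ∈ t, μ (pr '' Metric.ball (z : ℂ) (r z)) := measure_biUnion_finset_le _ _
    _ < ⊤ := ENNReal.sum_lt_top.2 fun z _ => hfin z

theorem part3 (hUT : IsUT Ω φ pr q) (hL : IsArea Ω φ pr μ) (B : Set ℂ) (hB : MeasurableSet B)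
    (hBΩ : B ⊆ Ω) (h0 : volume B = 0) : μ (pr '' B) = 0 := by
  have hex : ∀ z : ℂ, ∃ r : ℝ, 0 < r ∧ (z ∈ Ω → Metric.ball z r ⊆ Ω ∧
      InjOn pr (Metric.ball z r)) := by
    intro z
    by_cases hz : z ∈ Ω
    · obtain ⟨r, hr, hsub, hinj⟩ := hUT.injp z hz
      exact ⟨r, hr, fun _ => ⟨hsub, hinj⟩⟩
    · exact ⟨1, one_pos, fun h => absurd h hz⟩
  choose r hr hsub using hex
  obtain ⟨t, htΩ, htc, hcov⟩ := TopologicalSpace.countable_cover_nhdsWithin
    (f := fun z => Metric.ball z (r z)) (s := Ω)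
    (fun z _ => mem_nhdsWithin_of_mem_nhds (Metric.ball_mem_nhds z (hr z)))
  have h1 : pr '' B ⊆ ⋃ z ∈ t, pr '' (B ∩ Metric.ball z (r z)) := by
    rintro _ ⟨w, hw, rfl⟩
    obtain ⟨z, hz, hwz⟩ := mem_iUnion₂.1 (hcov (hBΩ hw))
    exact mem_iUnion₂.2 ⟨z, hz, w, ⟨hw, hwz⟩, rfl⟩
  refine measure_mono_null h1 ?_
  rw [measure_biUnion_null_iff htc]
  intro z hz
  have hzΩ := htΩ hz
  rw [hL _ (hB.inter measurableSet_ball) (inter_subset_left.trans hBΩ)
    ((hsub z hzΩ).2.mono inter_subset_right)]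
  have h2 : (volume : Measure ℂ).restrict (B ∩ Metric.ball z (r z)) = 0 := by
    rw [Measure.restrict_eq_zero]
    exact measure_mono_null inter_subset_left h0
  rw [h2, lintegral_zero_measure]

theorem part4 (hUT : IsUT Ω φ pr q) (hL : IsArea Ω φ pr μ) (h : M → ℝ) (hh : Continuous h)
    (s : ℝ) : IsArea Ω (fun z => φ z + s / 2 * h (pr z)) pr
        (Pool.Agent.Y262.QE.wm μ fun x => Real.exp (s * h x)) := by
  intro B hB hBΩ hinj
  obtain ⟨hqB, h1, -⟩ := part1 hUT hL B hB hBΩ hinj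
  unfold Pool.Agent.Y262.QE.wm
  rw [withDensity_apply _ hqB]
  have hm : Measurable (fun x => ENNReal.ofReal (Real.exp (s * h x))) :=
    (Real.measurable_exp.comp (hh.measurable.const_mul s)).ennreal_ofReal
  rw [h1 _ hm]
  refine setLIntegral_congr_fun hB fun z _ => ?_
  show ENNReal.ofReal (Real.exp (s * h (pr z))) * ENNReal.ofReal (Real.exp (2 * φ z)) =
    ENNReal.ofReal (Real.exp (2 * (φ z + s / 2 * h (pr z))))
  rw [← ENNReal.ofReal_mul (Real.exp_pos _).le, ← Real.exp_add]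
  congr 2
  ring

end

theorem cvM : StCVM := by
  intro M P _ _ _ _ _ _ Ω φ pr q μ hUT hL
  exact ⟨fun B hB hBΩ hinj => part1 hUT hL B hB hBΩ hinj, part2 hUT hL,
    fun B hB hBΩ h0 => part3 hUT hL B hB hBΩ h0, fun h hh _ s => part4 hUT hL h hh s⟩

end Pool.Agent.Y848.EL
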